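import Pool.Agent.Helper37.EQ.Spec

/-!
# EQ swarm, part GAU: the exponential integral of the gauge is at most `d!` times the volume of
its ball (adapted from `Pool.Agent.Helper54.MAH.EB`)
-/

set_option autoImplicit false

noncomputable section

open MeasureTheory Filter Topology Set
open scoped ENNReal InnerProductSpace Pointwise

namespace Pool.Agent.Helper94.EQ.GAU

open Helper82.MAH Helper37.EQ

variable {d : ℕ}

lemma lintegral_exp_Ici (c : ℝ) :
    ∫⁻ t in Ici c, ENNReal.ofReal (Real.exp (-t)) = ENNReal.ofReal (Real.exp (-c)) := by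
  have h1 : ∫⁻ t in Ici c, ENNReal.ofReal (Real.exp (-t)) =
      ∫⁻ t in Ioi c, ENNReal.ofReal (Real.exp (-t)) := by
    rw [setLIntegral_congr Ioi_ae_eq_Ici]
  rw [h1, ← integral_exp_neg_Ioi c, ofReal_integral_eq_lintegral_ofReal]
  · have h2 : IntegrableOn (fun t : ℝ => Real.exp (-t)) (Ioi c) := by
      simpa using exp_neg_integrableOn_Ioi c one_pos
    exact h2
  · exact ae_of_all _ fun t => (Real.exp_pos _).le

lemma lintegral_gamma (n : ℕ) :
    ∫⁻ t in Ioi (0 : ℝ), ENNReal.ofReal (Real.exp (-t) * t ^ n) =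
      ENNReal.ofReal (n.factorial : ℝ) := by
  have h1 := Real.Gamma_eq_integral (s := (n : ℝ) + 1) (by positivity)
  rw [Real.Gamma_nat_eq_factorial] at h1
  have h2 := Real.GammaIntegral_convergent (s := (n : ℝ) + 1) (by positivity)
  have h3 : ∀ t : ℝ, Real.exp (-t) * t ^ ((n : ℝ) + 1 - 1) = Real.exp (-t) * t ^ n := by
    intro t
    rw [add_sub_cancel_right, Real.rpow_natCast]
  simp only [h3] at h1 h2
  rw [h1, ofReal_integral_eq_lintegral_ofReal h2]
  rw [EventuallyLE, ae_restrict_iff' measurableSet_Ioi]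
  refine ae_of_all _ fun t ht => ?_
  have ht' : (0 : ℝ) < t := ht
  show 0 ≤ _
  positivity

/-- the exponential integral of a gauge, upper bound -/
theorem gauge_int_le (N : E d → ℝ) (hcont : Continuous N)
    (hN : ∀ c : ℝ, 0 < c → ∀ x, N (c • x) = c * N x) (hpos : ∀ x, x ≠ 0 → 0 < N x)
    (h0 : 0 ≤ N 0) :
    ∫⁻ y, ENNReal.ofReal (Real.exp (-(N y))) ≤
      ENNReal.ofReal (d.factorial : ℝ) * volume {x | N x ≤ 1} := by
  set f : E d → ℝ → ℝ≥0∞ := fun y t =>
    (Ici (N y)).indicator (fun t => ENNReal.ofReal (Real.exp (-t))) t with hf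
  have h1 : ∀ y, ENNReal.ofReal (Real.exp (-(N y))) = ∫⁻ t, f y t := by
    intro y
    simp only [hf]
    rw [lintegral_indicator measurableSet_Ici, lintegral_exp_Ici]
  have hmeas : Measurable (Function.uncurry f) := by
    have e : Function.uncurry f = {p : E d × ℝ | N p.1 ≤ p.2}.indicator
        (fun p => ENNReal.ofReal (Real.exp (-p.2))) := by
      ext ⟨y, t⟩
      simp only [Function.uncurry, hf, indicator, mem_Ici, mem_ofPred_eq]
    rw [e]
    refine Measurable.indicator ?_ ?_
    · exact (by fun_prop : Continuous fun p : E d × ℝ =>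
        Real.exp (-p.2)).measurable.ennreal_ofReal
    · exact (isClosed_le (hcont.comp continuous_fst) continuous_snd).measurableSet
  have h2 : ∫⁻ y, ENNReal.ofReal (Real.exp (-(N y))) = ∫⁻ t, ∫⁻ y, f y t := by
    rw [lintegral_congr h1]
    exact lintegral_lintegral_swap hmeas.aemeasurable
  have hNnn : ∀ x, 0 ≤ N x := by
    intro x
    by_cases hx : x = 0
    · rw [hx]; exact h0
    · exact (hpos x hx).le
  have e : ∀ t y, f y t = {y | N y ≤ t}.indicator
      (fun _ => ENNReal.ofReal (Real.exp (-t))) y := by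
    intro t y
    simp only [hf, indicator, mem_Ici, mem_ofPred_eq]
  have hint : ∀ t, ∫⁻ y, f y t = ENNReal.ofReal (Real.exp (-t)) * volume {y | N y ≤ t} := by
    intro t
    rw [lintegral_congr (e t), lintegral_indicator (isClosed_le hcont continuous_const).measurableSet,
      lintegral_const, Measure.restrict_apply_univ]
  have h3 : ∀ t : ℝ, 0 < t → ∫⁻ y, f y t =
      ENNReal.ofReal (Real.exp (-t) * t ^ d) * volume {x | N x ≤ 1} := by
    intro t ht
    rw [hint, ENNReal.ofReal_mul (Real.exp_pos _).le, mul_assoc]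
    congr 1
    have hsub : {y | N y ≤ t} = t • {x | N x ≤ 1} := by
      ext y
      rw [mem_smul_set_iff_inv_smul_mem₀ ht.ne']
      change N y ≤ t ↔ N (t⁻¹ • y) ≤ 1
      rw [hN _ (inv_pos.2 ht), inv_mul_le_iff₀ ht, mul_one]
    rw [hsub, Measure.addHaar_smul, finrank_euclideanSpace, Fintype.card_fin,
      abs_of_nonneg (by positivity)]
  have h4 : ∀ t : ℝ, t < 0 → ∫⁻ y, f y t = 0 := by
    intro t ht
    rw [hint]
    have : {y | N y ≤ t} = ∅ := by
      ext y
      simp only [mem_ofPred_eq, mem_empty_iff_false, iff_false, not_le]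
      exact ht.trans_le (hNnn y)
    rw [this, measure_empty, mul_zero]
  rw [h2]
  have h5 : ∫⁻ t, ∫⁻ y, f y t = ∫⁻ t in Ioi (0 : ℝ), ∫⁻ y, f y t := by
    rw [← lintegral_indicator measurableSet_Ioi]
    refine lintegral_congr_ae ?_
    have hne : ∀ᵐ t : ℝ, t ≠ 0 := by
      rw [ae_iff]
      simp
    filter_upwards [hne] with t ht
    rcases lt_or_gt_of_ne ht with h | h
    · rw [h4 t h, indicator_of_notMem (by simp only [mem_Ioi, not_lt]; exact h.le)]
    · rw [indicator_of_mem (by exact h)]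
  rw [h5, setLIntegral_congr_fun measurableSet_Ioi (fun t ht => h3 t ht), lintegral_mul_const,
    lintegral_gamma]
  exact (by fun_prop : Continuous fun t : ℝ =>
    Real.exp (-t) * t ^ d).measurable.ennreal_ofReal

theorem main (h1 : S_NRM) (h2 : S_CLS) (h3 : S_ITG) : Q_GAU := by
  intro d K s hs0 hs1
  have h1s : 0 < 1 - s := by linarith
  rw [A]
  set a := 1 / (1 - s) with ha
  set b := 1 / s with hb
  have ha0 : 0 < a := by positivity
  have hb0 : 0 < b := by positivity
  have ha1 : 1 ≤ a := by rw [ha, le_div_iff₀ h1s]; linarith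
  have hb1 : 1 ≤ b := by rw [hb, le_div_iff₀ hs0]; linarith
  obtain ⟨n1, n2, n3, n4, n5, n6, n7, ⟨cl, hcl0, hcl⟩, n9, n10⟩ := h1 d K a b ha0 hb0
  obtain ⟨-, m2, -, -, -, -, -, -, -, -⟩ := h1 d K 1 1 one_pos one_pos
  obtain ⟨c1, c2, c3⟩ := h2 d K a b ha0 hb0
  set N := nrm K a b with hN
  have hNc : Continuous N := by
    obtain ⟨c, hc, h⟩ := c3 N c1
    have : LipschitzWith ⟨c, hc.le⟩ N := LipschitzWith.of_dist_le_mul fun x y => by
      rw [Real.dist_eq, dist_eq_norm]; exact h x y
    exact this.continuous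
  have e_nonneg : ∀ v ∈ K.C, 0 ≤ ⟪K.e, v⟫_ℝ := by
    intro v hv
    by_cases h : v = 0
    · subst h; simp
    · exact (K.pos v hv h).le
  have cl_mono : ∀ f : E d → ℝ, Cl K a b f → Cl K (max a b) (max a b) f := by
    intro f hf x v hv
    have h0 := e_nonneg v hv
    obtain ⟨h1, h2⟩ := hf x v hv
    exact ⟨h1.trans (by nlinarith [mul_le_mul_of_nonneg_right (le_max_left a b) h0]),
      h2.trans (by nlinarith [mul_le_mul_of_nonneg_right (le_max_right a b) h0])⟩
  have hSG : SG K N := by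
    refine ⟨⟨_, cl_mono N c1⟩, 0, fun x => ?_⟩
    obtain ⟨u, hu, v, hv, hx, hNx⟩ := n1 x
    rw [hNx]
    have := m2 x u hu v hv hx
    have hu0 := e_nonneg u hu
    have hv0 := e_nonneg v hv
    nlinarith
  have hNi : Integrable (fun x => Real.exp (-N x)) := (h3 d K N N _ hSG (cl_mono N c1)).1
  have hI := gauge_int_le N hNc (fun c hc x => n5 c hc.le x)
    (fun x hx => lt_of_lt_of_le (mul_pos hcl0 (norm_pos_iff.2 hx)) (hcl x)) (n3 0)
  have hIr : ∫⁻ y, ENNReal.ofReal (Real.exp (-(N y))) = ENNReal.ofReal (∫ x, Real.exp (-N x)) :=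
    (ofReal_integral_eq_lintegral_ofReal hNi (ae_of_all _ fun x => (Real.exp_pos _).le)).symm
  rw [hIr, ENNReal.ofReal_natCast] at hI
  exact hI

end Pool.Agent.Helper94.EQ.GAU
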