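import Pool.Agent.Helper37.EQ.Spec

/-!
# EQ swarm, part N1Q: the inequality (N1) with an additional level
(adapted from `Pool.Agent.Helper82.MAH.N1`)
-/

set_option autoImplicit false

noncomputable section

open MeasureTheory Filter Topology Set
open scoped ENNReal InnerProductSpace

namespace Pool.Agent.Helper94.EQ.N1Q

open Helper82.MAH Helper37.EQ

theorem main (h1 : Q_NLQ) (h2 : S_LIL) (h3 : S_LIM) : Q_N1Q := by
  intro d K z α β D' hz hα hαβ hβ hDD hD'
  set V : ℝ := (volume (Vin K z)).toReal with hV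
  have step : ∀ M : ℕ, 1 ≤ M → D0 K + (β - α) * (D' - D0 K) ≤
      2 * Real.log (∫ x, Real.exp (-nrm K 1 M x)) + ⟪K.e, z⟫_ℝ - Real.log V := by
    intro M hM
    have hM' : (1 : ℝ) ≤ (M : ℝ) := by exact_mod_cast hM
    have t0 : Tendsto (fun L : ℕ => 1 / (L : ℝ)) atTop (𝓝 0) := tendsto_one_div_atTop_nhds_zero_nat
    have tl := h2 d K z M hz hM'
    have l1 : Tendsto (fun L : ℕ => (1 - 2 * (1 / (L : ℝ))) * D0 K + (β - α) * (D' - D0 K)) atTop
        (𝓝 ((1 - 2 * 0) * D0 K + (β - α) * (D' - D0 K))) :=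
      ((tendsto_const_nhds.sub (t0.const_mul 2)).mul_const (D0 K)).add_const _
    have l2 : Tendsto (fun L : ℕ => (2 - 1 / (L : ℝ)) * Real.log (∫ x, Real.exp (-nrm K 1 M x)) +
        ⟪K.e, z⟫_ℝ + (∫ x, Real.exp (-((L : ℝ) * pz K z x)) *
          (nrm K 1 M x + nrm K 1 M (z - x) - ⟪K.e, z⟫_ℝ)) / V - (1 + 1 / (L : ℝ)) * Real.log V)
        atTop (𝓝 ((2 - 0) * Real.log (∫ x, Real.exp (-nrm K 1 M x)) + ⟪K.e, z⟫_ℝ + 0 / V -
          (1 + 0) * Real.log V)) :=
      (((((tendsto_const_nhds.sub t0).mul_const _).add_const _).add (tl.div_const V))).sub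
        ((tendsto_const_nhds.add t0).mul_const _)
    have key := le_of_tendsto_of_tendsto l1 l2 ?_
    · simpa using key
    · have t1 : ∀ᶠ L : ℕ in atTop, 1 / (L : ℝ) < α := t0.eventually (gt_mem_nhds hα)
      have t2 : ∀ᶠ L : ℕ in atTop, 1 / (L : ℝ) < 1 - β :=
        t0.eventually (gt_mem_nhds (by linarith))
      filter_upwards [eventually_gt_atTop 2, t1, t2] with L hL hL1 hL2
      have hL' : (2 : ℝ) < (L : ℝ) := by exact_mod_cast hL
      have := h1 d K z L M α β D' hz hL' hM' hL1.le hαβ (by linarith) hDD hD'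
      have e : (1 : ℝ) - 2 / (L : ℝ) = 1 - 2 * (1 / (L : ℝ)) := by ring
      rw [e] at this
      exact this
  obtain ⟨hlim, hpos⟩ := h3 d K
  have l3 : Tendsto (fun M : ℕ => 2 * Real.log (∫ x, Real.exp (-nrm K 1 M x)) + ⟪K.e, z⟫_ℝ -
      Real.log V) atTop (𝓝 (2 * Real.log (∫ x in K.C, Real.exp (-⟪K.e, x⟫_ℝ)) + ⟪K.e, z⟫_ℝ -
        Real.log V)) :=
    (((hlim.log hpos.ne').const_mul 2).add_const _).sub_const _
  have := ge_of_tendsto l3 (by
    filter_upwards [eventually_ge_atTop 1] with M hM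
    exact step M hM)
  have e0 : D0 K = (d : ℝ) - Real.log (volume (Vst K)).toReal := rfl
  have e1 : D0 K + (β - α) * (D' - D0 K) =
      (d : ℝ) - Real.log (volume (Vst K)).toReal + (β - α) * (D' - D0 K) := by rw [e0]
  rw [e1] at this
  linarith

end Pool.Agent.Helper94.EQ.N1Q
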