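import Pool.Agent.Helper37.EQ.Spec
import Pool.Agent.Helper66.MAH.NLM

/-!
# EQ swarm, part NLQ: the path inequality with two levels and the penalties `L` and `M`
(adapted from `Pool.Agent.Helper66.MAH.NLM`)
-/

set_option autoImplicit false

noncomputable section

open MeasureTheory Filter Topology Set
open scoped ENNReal InnerProductSpace

namespace Pool.Agent.Helper94.EQ.NLQ

open Helper82.MAH Helper37.EQ Pool.Agent.Helper66.MAH.NLM

variable {d : ℕ}

theorem main (hP : Q_PAT) (hEB : Q_EBA) (hLE : Q_LEN) (hPZ : S_PZ) (hV : S_VOL) (hN : S_NRM)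
    (hC : S_CLS) (hI : S_ITG) : Q_NLQ := by
  intro d K z L M α β D' hz hL hM hα hαβ hβ hDD hD'
  have hzC : z ∈ K.C := interior_subset hz
  obtain ⟨hcomp, hp0, hpin, -, hpL, cp, hcp⟩ := hPZ d K z hzC
  obtain ⟨hV1, hV2⟩ := hV d K z hz
  have hM0 : 0 < M := by linarith
  have hL0 : 0 < L := by linarith
  obtain ⟨-, -, hnn, hadd, -, hnC, -, -, -, -⟩ := hN d K 1 M one_pos hM0
  obtain ⟨-, -, hnn1, hadd1, -, -, -, -, -, -⟩ := hN d K 1 1 one_pos one_pos
  obtain ⟨hCl0, -, -⟩ := hC d K 1 M one_pos hM0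
  -- the gauge 1 M is SG
  have hmono : ∀ x, nrm K 1 1 x ≤ nrm K 1 M x := nrm_mono hN K one_pos one_pos le_rfl hM
  have hSG0 : SG K (nrm K 1 M) :=
    ⟨⟨M, Cl_mono K hCl0 hM le_rfl⟩, 0, fun x => by linarith [hmono x]⟩
  -- the reflected gauge
  have hClz : Cl K M 1 (fun x => nrm K 1 M (z - x)) := Cl_refl hN K z hM0
  have hSGz : SG K (fun x => nrm K 1 M (z - x)) := by
    refine ⟨⟨M, Cl_mono K hClz le_rfl hM⟩, nrm K 1 1 z, fun x => ?_⟩
    have h1 := hadd1 z (x - z)
    have h2 : z + (x - z) = x := by abel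
    rw [h2] at h1
    have h3 := nrm_symm_le hN K (z - x)
    have h4 : -(z - x) = x - z := by abel
    rw [h4] at h3
    have h5 := hmono (z - x)
    beta_reduce
    linarith
  have hconst : ∀ c : ℝ, Cl K 1 1 (fun _ => c) := by
    intro c x v hv
    have := e_nonneg K v hv
    beta_reduce
    exact ⟨by linarith, by linarith⟩
  -- the penalty
  have hSGp : SG K (fun x => L * pz K z x) := by
    refine ⟨⟨L, hpL L hL0.le⟩, cp, fun x => ?_⟩
    have h1 := hcp x
    have h2 := hp0 x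
    beta_reduce
    nlinarith
  have hIp : Integrable (fun x => Real.exp (-(L * pz K z x))) :=
    (hI d K _ (fun _ => 0) 1 hSGp (hconst 0)).1
  set Z : ℝ := ∫ x, Real.exp (-(L * pz K z x)) with hZ
  set V : ℝ := (volume (Vin K z)).toReal with hVdef
  have hZV : V ≤ Z := by
    have h1 : ∫ x in Vin K z, Real.exp (-(L * pz K z x)) = V := by
      have h2 : ∫ x in Vin K z, Real.exp (-(L * pz K z x)) = ∫ x in Vin K z, (1 : ℝ) := by
        refine setIntegral_congr_fun hcomp.isClosed.measurableSet fun x hx => ?_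
        beta_reduce
        rw [hpin x hx, mul_zero, neg_zero, Real.exp_zero]
      rw [h2, setIntegral_const, smul_eq_mul, mul_one]
      rfl
    rw [← h1]
    exact setIntegral_le_integral hIp (Eventually.of_forall fun x => (Real.exp_pos _).le)
  have hZ0 : 0 < Z := hV1.trans_le hZV
  -- the starting density
  set R0 : E d → ℝ := fun x => L * pz K z x + Real.log Z with hR0
  have hexpR : ∀ x, Real.exp (-R0 x) = Z⁻¹ * Real.exp (-(L * pz K z x)) := by
    intro x
    rw [hR0]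
    beta_reduce
    rw [neg_add, Real.exp_add, Real.exp_neg (Real.log Z), Real.exp_log hZ0, mul_comm]
  have hClR : Cl K L L R0 := by
    intro x v hv
    obtain ⟨h1, h2⟩ := hpL L hL0.le x v hv
    rw [hR0]
    beta_reduce at h1 h2 ⊢
    exact ⟨by linarith, by linarith⟩
  have hSGR : SG K R0 := by
    obtain ⟨-, c, hc⟩ := hSGp
    refine ⟨⟨L, hClR⟩, c - Real.log Z, fun x => ?_⟩
    have h1 := hc x
    rw [hR0]
    beta_reduce at h1 ⊢
    linarith
  have hintR : ∫ x, Real.exp (-R0 x) = 1 := by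
    simp_rw [hexpR]
    rw [integral_const_mul, ← hZ, inv_mul_cancel₀ hZ0.ne']
  have hGood : Good K R0 := ⟨hSGR, hintR⟩
  -- parameters
  set s0 : ℝ := 1 / L with hs0
  set s1 : ℝ := 1 - 1 / L with hs1
  have hLi : 1 / L < 1 / 2 := one_div_lt_one_div_of_lt two_pos hL
  have hLi0 : 0 < 1 / L := one_div_pos.mpr hL0
  have h01 : s0 < s1 := by rw [hs0, hs1]; linarith
  have h11 : s1 < 1 := by rw [hs1]; linarith
  have hM1 : 1 ≤ max L M := hM.trans (le_max_right _ _)
  have hClR' : Cl K (max L M) (1 / s0) R0 := by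
    refine Cl_mono K hClR (le_max_left _ _) ?_
    rw [hs0, one_div_one_div]
  -- integrability of the scaled gauge
  have hone : 0 < 1 - s0 := by rw [hs0]; linarith
  have hscale : ∀ x, nrm K 1 M x ≤ nrm K 1 M x / (1 - s0) := by
    intro x
    rw [le_div_iff₀ hone]
    have := hnn x
    nlinarith
  have hI0 : Integrable (fun x => Real.exp (-nrm K 1 M x)) :=
    (hI d K _ (fun _ => 0) 1 hSG0 (hconst 0)).1
  have hSGs : SG K (fun x => nrm K 1 M x / (1 - s0)) := by
    refine ⟨⟨M / (1 - s0), ?_⟩, 0, fun x => ?_⟩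
    · intro x v hv
      obtain ⟨h1, h2⟩ := (Cl_mono K hCl0 hM le_rfl : Cl K M M (nrm K 1 M)) x v hv
      have h3 := (div_le_div_iff_of_pos_right hone).mpr h1
      have h4 := (div_le_div_iff_of_pos_right hone).mpr h2
      beta_reduce
      rw [add_div] at h3 h4
      rw [div_mul_eq_mul_div]
      exact ⟨h3, h4⟩
    · beta_reduce
      linarith [hscale x, hmono x]
  have hIs : Integrable (fun x => Real.exp (-(nrm K 1 M x / (1 - s0)))) :=
    (hI d K _ (fun _ => 0) 1 hSGs (hconst 0)).1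
  have hIz : Integrable (fun x => Real.exp (-nrm K 1 M (z - x))) :=
    (hI d K _ (fun _ => 0) 1 hSGz (hconst 0)).1
  have hEnt1 : ∀ s, s0 ≤ s → s ≤ s1 → ∀ G, Good K G → Cl K (1 / (1 - s)) (1 / s) G →
      D0 K ≤ Ent G := by
    intro s hs hs' G hG hClG
    have g1 := hEB d K s G (hLi0.trans_le hs) (hs'.trans_lt h11) hG hClG
    obtain ⟨q1, q2, q3⟩ := hLE d K s (hLi0.trans_le hs) (hs'.trans_lt h11)
    have q4 := Real.log_nonneg q3
    rw [Real.log_mul q1.ne' q2.ne'] at q4
    rw [D0]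
    linarith
  have hEnt2 : ∀ s, α ≤ s → s ≤ β → ∀ G, Good K G → Cl K (1 / (1 - s)) (1 / s) G →
      D' ≤ Ent G := by
    intro s hs hs' G hG hClG
    have g1 := hEB d K s G (hLi0.trans_le (hα.trans hs)) ((hs'.trans hβ).trans_lt h11) hG hClG
    exact (hD' s hs hs').trans g1
  have key := hP d K s0 s1 α β (max L M) (D0 K) D' R0
    (nrm K 1 M) (fun x => nrm K 1 M (z - x)) hLi0 h01 h11 hα hαβ hβ hDD hM1 hGood hClR'
    (Cl_mono K hCl0 le_rfl (le_max_right _ _)) (Cl_mono K hClz (le_max_right _ _) le_rfl)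
    hIs hIz hEnt1 hEnt2
  -- (a)
  have hpos : ∀ f : E d → ℝ, Integrable (fun x => Real.exp (-f x)) →
      0 < ∫ x, Real.exp (-f x) := fun f hf => integral_exp_pos hf
  set Φ : ℝ := ∫ x, Real.exp (-nrm K 1 M x) with hΦ
  have ha : Real.log (∫ x, Real.exp (-(nrm K 1 M x / (1 - s0)))) ≤ Real.log Φ := by
    refine Real.log_le_log (hpos (fun x => nrm K 1 M x / (1 - s0)) hIs) ?_
    refine integral_mono hIs hI0 fun x => ?_
    exact Real.exp_le_exp.mpr (by linarith [hscale x])
  -- (b)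
  have hb : ∫ x, Real.exp (-nrm K 1 M (z - x)) = Φ :=
    integral_sub_left_eq_self (fun x => Real.exp (-nrm K 1 M x)) volume z
  -- integrability of products
  have hIR : Integrable (fun x => Real.exp (-R0 x)) :=
    (hI d K _ (fun _ => 0) 1 hSGR (hconst 0)).1
  have hIR0 : Integrable (fun x => Real.exp (-R0 x) * nrm K 1 M x) :=
    (hI d K _ _ M hSGR (Cl_mono K hCl0 hM le_rfl)).2
  have hIRz : Integrable (fun x => Real.exp (-R0 x) * nrm K 1 M (z - x)) :=
    (hI d K _ (fun x => nrm K 1 M (z - x)) M hSGR (Cl_mono K hClz le_rfl hM)).2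
  have hIRR : Integrable (fun x => Real.exp (-R0 x) * R0 x) :=
    (hI d K _ R0 L hSGR hClR).2
  -- (c)
  have hc : Real.log V ≤ Ent R0 := by
    have h1 : Real.log Z ≤ Ent R0 := by
      have h2 : Real.log Z = ∫ x, Real.exp (-R0 x) * Real.log Z := by
        rw [integral_mul_const, hintR, one_mul]
      rw [h2]
      refine integral_mono (hIR.mul_const _) hIRR fun x => ?_
      refine mul_le_mul_of_nonneg_left ?_ (Real.exp_pos _).le
      rw [hR0]
      beta_reduce
      have := mul_nonneg hL0.le (hp0 x)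
      linarith
    exact (Real.log_le_log hV1 hZV).trans h1
  -- (d)
  have hdn : ∀ x, 0 ≤ nrm K 1 M x + nrm K 1 M (z - x) - ⟪K.e, z⟫_ℝ := by
    intro x
    have h1 := hadd x (z - x)
    have h2 : x + (z - x) = z := by abel
    rw [h2, hnC z hzC, one_mul] at h1
    linarith
  set J : ℝ := ∫ x, Real.exp (-(L * pz K z x)) *
    (nrm K 1 M x + nrm K 1 M (z - x) - ⟪K.e, z⟫_ℝ) with hJ
  have hJ0 : 0 ≤ J := integral_nonneg fun x => mul_nonneg (Real.exp_pos _).le (hdn x)
  have hd1 : (∫ x, Real.exp (-R0 x) * nrm K 1 M x) +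
      (∫ x, Real.exp (-R0 x) * nrm K 1 M (z - x)) = ⟪K.e, z⟫_ℝ + J / Z := by
    have h1 : (∫ x, Real.exp (-R0 x) * nrm K 1 M x) +
        (∫ x, Real.exp (-R0 x) * nrm K 1 M (z - x)) - ⟪K.e, z⟫_ℝ =
        ∫ x, Real.exp (-R0 x) * (nrm K 1 M x + nrm K 1 M (z - x) - ⟪K.e, z⟫_ℝ) := by
      have h2 : ⟪K.e, z⟫_ℝ = ∫ x, Real.exp (-R0 x) * ⟪K.e, z⟫_ℝ := by
        rw [integral_mul_const, hintR, one_mul]
      conv_lhs => rw [h2]
      have h5 : Integrable (fun x => Real.exp (-R0 x) * nrm K 1 M x +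
          Real.exp (-R0 x) * nrm K 1 M (z - x)) := hIR0.add hIRz
      rw [← integral_add hIR0 hIRz, ← integral_sub h5 (hIR.mul_const _)]
      refine integral_congr_ae (Eventually.of_forall fun x => ?_)
      beta_reduce
      ring
    have h3 : ∫ x, Real.exp (-R0 x) * (nrm K 1 M x + nrm K 1 M (z - x) - ⟪K.e, z⟫_ℝ) =
        J / Z := by
      rw [hJ, div_eq_inv_mul, ← integral_const_mul]
      refine integral_congr_ae (Eventually.of_forall fun x => ?_)
      beta_reduce
      rw [hexpR]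
      ring
    rw [h3] at h1
    linarith
  have hd2 : J / Z ≤ J / V := div_le_div_of_nonneg_left hJ0 hV1 hZV
  rw [hb] at key
  have e1 : s1 - s0 = 1 - 2 / L := by rw [hs0, hs1]; ring
  have e2 : 1 - s0 = 1 - 1 / L := by rw [hs0]
  have e3 : 2 - s1 = 1 + 1 / L := by rw [hs1]; ring
  have ha' := mul_le_mul_of_nonneg_left ha hone.le
  have hc' := mul_le_mul_of_nonneg_left hc (by linarith : (0 : ℝ) ≤ 1 + 1 / L)
  rw [e1, e3] at key
  rw [e2] at key ha'
  have e4 : (2 - 1 / L) * Real.log Φ = (1 - 1 / L) * Real.log Φ + Real.log Φ := by ring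
  rw [e4]
  rw [← e2] at key ha' ⊢
  linarith

end Pool.Agent.Helper94.EQ.NLQ
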